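import Pool.Agent.QSB.StmtsT

set_option autoImplicit false

namespace Pool.Agent.QSB.H67

open Matrix Finset Pool.Agent.QSX Pool.Agent.QSN

theorem dsc : DscStmt := by
  intro k 𝔻 hk hD x hx hsym
  have hH : x.IsHermitian := by
    rw [Matrix.IsHermitian, Matrix.conjTranspose_eq_transpose_of_trivial]
    exact hsym
  obtain ⟨i, hi⟩ : ∃ i : Fin k, i = ⟨0, hk⟩ := ⟨_, rfl⟩
  have hv := hH.mulVec_eigenvectorBasis i
  have hne : hH.eigenvectorBasis i ≠ 0 := hH.eigenvectorBasis.orthonormal.ne_zero i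
  refine ⟨hH.eigenvalues i, ?_⟩
  by_contra hcon
  have ha : x - hH.eigenvalues i • (1 : Matrix (Fin k) (Fin k) ℝ) ∈ 𝔻 :=
    𝔻.sub_mem hx (𝔻.smul_mem 𝔻.one_mem _)
  have ha0 : x - hH.eigenvalues i • (1 : Matrix (Fin k) (Fin k) ℝ) ≠ 0 := by
    intro h
    exact hcon (sub_eq_zero.mp h)
  obtain ⟨b, _, hb⟩ := hD.2 _ ha ha0
  have hba : b * (x - hH.eigenvalues i • (1 : Matrix (Fin k) (Fin k) ℝ)) = 1 :=
    mul_eq_one_comm.mp hb
  have hk0 : (x - hH.eigenvalues i • (1 : Matrix (Fin k) (Fin k) ℝ)) *ᵥ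
      (hH.eigenvectorBasis i : Fin k → ℝ) = 0 := by
    rw [Matrix.sub_mulVec, Matrix.smul_mulVec, Matrix.one_mulVec, hv, sub_self]
  have hz : ((hH.eigenvectorBasis i : EuclideanSpace ℝ (Fin k)) : Fin k → ℝ) = 0 := by
    have h1 := congrArg (fun y => b *ᵥ y) hk0
    simp only [Matrix.mulVec_mulVec, hba, Matrix.one_mulVec, Matrix.mulVec_zero] at h1
    exact h1
  apply hne
  ext j
  exact congrFun hz j

end Pool.Agent.QSB.H67
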