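import Pool.Agent.QSB.StmtsE
import Pool.Agent.Helper34_QSN.PRA

set_option autoImplicit false

/-! # Row RRP: the conditions `Ray`, `S3`, `RR`, `Red` for products -/

namespace Pool.Agent.QSB.H67

open Matrix Finset Pool.Agent.QSX Pool.Agent.QSN
open Pool.Agent.QSN.H34 (inL inR wt_L wt_R)

theorem root_ne {Y : Dat} (h : Ray Y) {ρ : Y.b →ₗ[ℝ] ℝ} (hρ : IsRt Y ρ) : ρ ≠ 0 := by
  intro h0
  have h1 : IsRt Y ((0 : ℝ) • ρ) := by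
    rw [zero_smul, ← h0]
    exact hρ
  rcases h ρ 0 hρ h1 with h2 | h2 | h2 <;> norm_num at h2

/-- `X` is a product, `Y` is one of the two factors and `Z` is the other one -/
structure Fc (X Y Z : Dat) where
  i : Y.b →ₗ[ℝ] X.b
  p : X.b →ₗ[ℝ] Y.b
  k : Z.b →ₗ[ℝ] X.b
  j : Matrix (Fin Y.m) (Fin Y.m) ℝ →ₗ[ℝ] Matrix (Fin X.m) (Fin X.m) ℝ
  pi : ∀ c, p (i c) = c
  pk : ∀ c, p (k c) = 0
  dec : ∀ ρ : X.b →ₗ[ℝ] ℝ, ρ ∘ₗ k = 0 → ρ = (ρ ∘ₗ i) ∘ₗ p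
  inj : ∀ x, j x = 0 → x = 0
  mul : ∀ x y, j (x * y) = j x * j y
  up : ∀ (σ : Y.b →ₗ[ℝ] ℝ) (x : Matrix (Fin Y.m) (Fin Y.m) ℝ), RtV Y σ x →
    RtV X (σ ∘ₗ p) (j x)
  down : ∀ (ρ : X.b →ₗ[ℝ] ℝ) (x : Matrix (Fin X.m) (Fin X.m) ℝ), ρ ∘ₗ k = 0 → RtV X ρ x →
    ∃ y, x = j y ∧ RtV Y (ρ ∘ₗ i) y
  ne : ∀ ρ : X.b →ₗ[ℝ] ℝ, ρ ∘ₗ k = 0 → IsRt X ρ → ρ ∘ₗ i ≠ 0
  alt : ∀ ρ : X.b →ₗ[ℝ] ℝ, IsRt X ρ → ρ ∘ₗ i ≠ 0 → ρ ∘ₗ k = 0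

namespace Fc

variable {X Y Z : Dat} (F : Fc X Y Z)

theorem br (x y : Matrix (Fin Y.m) (Fin Y.m) ℝ) :
    F.j (x * y - y * x) = F.j x * F.j y - F.j y * F.j x := by
  rw [map_sub, F.mul, F.mul]

theorem upk (σ : Y.b →ₗ[ℝ] ℝ) : (σ ∘ₗ F.p) ∘ₗ F.k = 0 := by
  ext c
  rw [LinearMap.comp_apply, LinearMap.comp_apply, F.pk, map_zero, LinearMap.zero_apply]

theorem upi (σ : Y.b →ₗ[ℝ] ℝ) : (σ ∘ₗ F.p) ∘ₗ F.i = σ := by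
  ext c
  rw [LinearMap.comp_apply, LinearMap.comp_apply, F.pi]

theorem upR {σ : Y.b →ₗ[ℝ] ℝ} (h : IsRt Y σ) : IsRt X (σ ∘ₗ F.p) := by
  obtain ⟨x, hx⟩ := h
  exact ⟨F.j x, F.up σ x hx⟩

theorem dnR {ρ : X.b →ₗ[ℝ] ℝ} (hk : ρ ∘ₗ F.k = 0) (h : IsRt X ρ) : IsRt Y (ρ ∘ₗ F.i) := by
  obtain ⟨x, hx⟩ := h
  obtain ⟨y, -, hy⟩ := F.down ρ x hk hx
  exact ⟨y, hy⟩

theorem bk {ρ : X.b →ₗ[ℝ] ℝ} (hk : ρ ∘ₗ F.k = 0) (h : IsRt Y (ρ ∘ₗ F.i)) : IsRt X ρ := by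
  rw [F.dec ρ hk]
  exact F.upR h

theorem ksm {ρ : X.b →ₗ[ℝ] ℝ} (hk : ρ ∘ₗ F.k = 0) (c : ℝ) : (c • ρ) ∘ₗ F.k = 0 := by
  rw [LinearMap.smul_comp, hk, smul_zero]

theorem kadd {ρ γ : X.b →ₗ[ℝ] ℝ} (hk : ρ ∘ₗ F.k = 0) (hk' : γ ∘ₗ F.k = 0) :
    (ρ + γ) ∘ₗ F.k = 0 := by
  rw [LinearMap.add_comp, hk, hk', add_zero]

/-- a root whose sum with a root of `Y` is a root belongs to `Y` -/
theorem kof {ρ γ : X.b →ₗ[ℝ] ℝ} (hk : ρ ∘ₗ F.k = 0) (hρ : IsRt X ρ) {a : ℝ} (ha : a ≠ 0)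
    (hγ : IsRt X γ) (hs : IsRt X (a • ρ + γ)) : γ ∘ₗ F.k = 0 := by
  by_contra hc
  have h1 : γ ∘ₗ F.i = 0 := by
    by_contra h
    exact hc (F.alt γ hγ h)
  have h2 : (a • ρ + γ) ∘ₗ F.i = 0 := by
    by_contra h
    have h3 := F.alt _ hs h
    rw [LinearMap.add_comp, F.ksm hk, zero_add] at h3
    exact hc h3
  rw [LinearMap.add_comp, h1, add_zero, LinearMap.smul_comp] at h2
  rcases smul_eq_zero.1 h2 with h3 | h3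
  · exact ha h3
  · exact F.ne ρ hk hρ h3

theorem npr_up {σ σ' : Y.b →ₗ[ℝ] ℝ} (h : NPr σ σ') : NPr (σ ∘ₗ F.p) (σ' ∘ₗ F.p) := by
  refine ⟨fun c hc => h.1 c ?_, fun c hc => h.2 c ?_⟩
  · rw [← F.upi σ, hc, LinearMap.smul_comp, F.upi]
  · rw [← F.upi σ', hc, LinearMap.smul_comp, F.upi]

theorem npr_dn {ρ γ : X.b →ₗ[ℝ] ℝ} (hk : ρ ∘ₗ F.k = 0) (hk' : γ ∘ₗ F.k = 0) (h : NPr ρ γ) :
    NPr (ρ ∘ₗ F.i) (γ ∘ₗ F.i) := by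
  refine ⟨fun c hc => h.1 c ?_, fun c hc => h.2 c ?_⟩
  · rw [F.dec ρ hk, hc, LinearMap.smul_comp, ← F.dec γ hk']
  · rw [F.dec γ hk', hc, LinearMap.smul_comp, ← F.dec ρ hk]

theorem ray (hY : Ray Y) {ρ : X.b →ₗ[ℝ] ℝ} (hk : ρ ∘ₗ F.k = 0) {c : ℝ} (h1 : IsRt X ρ)
    (h2 : IsRt X (c • ρ)) : c = 1 ∨ c = 2 ∨ c = 1 / 2 := by
  refine hY (ρ ∘ₗ F.i) c (F.dnR hk h1) ?_
  rw [← LinearMap.smul_comp]
  exact F.dnR (F.ksm hk c) h2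

theorem red (hY : Red Y) {ρ : X.b →ₗ[ℝ] ℝ} (hk : ρ ∘ₗ F.k = 0) (h1 : IsRt X ρ) :
    ¬ IsRt X ((2 : ℝ) • ρ) := by
  intro h2
  refine hY (ρ ∘ₗ F.i) (F.dnR hk h1) ?_
  rw [← LinearMap.smul_comp]
  exact F.dnR (F.ksm hk 2) h2

theorem gnd {ρ : X.b →ₗ[ℝ] ℝ} (hk : ρ ∘ₗ F.k = 0) (h : Gnd Y (ρ ∘ₗ F.i)) : Gnd X ρ := by
  intro x hx
  obtain ⟨y, rfl, hy⟩ := F.down ρ x hk hx
  have h1 := Submodule.mem_map_of_mem (f := F.j) (h y hy)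
  rw [Submodule.map_span] at h1
  refine Submodule.span_mono ?_ h1
  rintro _ ⟨z, ⟨σ, σ', u, u', hn, hs, hu, hu', rfl⟩, rfl⟩
  refine ⟨σ ∘ₗ F.p, σ' ∘ₗ F.p, F.j u, F.j u', F.npr_up hn, ?_, F.up _ _ hu, F.up _ _ hu',
    F.br u u'⟩
  rw [← LinearMap.add_comp, hs, ← F.dec ρ hk]

theorem s3 (hY : S3 Y) {ρ : X.b →ₗ[ℝ] ℝ} (hk : ρ ∘ₗ F.k = 0) (h1 : IsRt X ρ) :
    Gnd X ρ ∨ (∃ σ, IsRt X σ ∧ ρ = (2 : ℝ) • σ) ∨
    (∀ x y, RtV X ρ x → RtV X ρ y → ∃ c : ℝ, y = c • x) ∨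
    (∃ γ, IsRt X γ ∧ IsRt X ((2 : ℝ) • ρ + γ)) ∨
    (∃ γ γ', IsRt X γ ∧ IsRt X γ' ∧ NPr γ ρ ∧ NPr γ' ρ ∧ IsRt X (ρ + γ) ∧ IsRt X (ρ + γ') ∧
      IsRt X (ρ + γ + γ')) := by
  have hd := F.dec ρ hk
  rcases hY (ρ ∘ₗ F.i) (F.dnR hk h1) with h | ⟨σ, hσ, e⟩ | h | ⟨γ, hγ, hs⟩ |
    ⟨γ, γ', hγ, hγ', n1, n2, s1, s2, s3⟩
  · exact Or.inl (F.gnd hk h)
  · refine Or.inr (Or.inl ⟨σ ∘ₗ F.p, F.upR hσ, ?_⟩)
    rw [hd, e, LinearMap.smul_comp]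
  · refine Or.inr (Or.inr (Or.inl ?_))
    intro x y hx hy
    obtain ⟨x', rfl, hx'⟩ := F.down ρ x hk hx
    obtain ⟨y', rfl, hy'⟩ := F.down ρ y hk hy
    obtain ⟨c, hc⟩ := h x' y' hx' hy'
    exact ⟨c, by rw [hc, map_smul]⟩
  · refine Or.inr (Or.inr (Or.inr (Or.inl ⟨γ ∘ₗ F.p, F.upR hγ, ?_⟩)))
    have h2 := F.upR hs
    rw [LinearMap.add_comp, LinearMap.smul_comp, ← hd] at h2
    exact h2
  · refine Or.inr (Or.inr (Or.inr (Or.inr ⟨γ ∘ₗ F.p, γ' ∘ₗ F.p, F.upR hγ, F.upR hγ', ?_, ?_, ?_,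
      ?_, ?_⟩)))
    · have h2 := F.npr_up n1
      rw [← hd] at h2
      exact h2
    · have h2 := F.npr_up n2
      rw [← hd] at h2
      exact h2
    · have h2 := F.upR s1
      rw [LinearMap.add_comp, ← hd] at h2
      exact h2
    · have h2 := F.upR s2
      rw [LinearMap.add_comp, ← hd] at h2
      exact h2
    · have h2 := F.upR s3
      rw [LinearMap.add_comp, LinearMap.add_comp, ← hd] at h2
      exact h2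

theorem rinj (hY : RR Y) {ρ γ : X.b →ₗ[ℝ] ℝ} {w z : Matrix (Fin X.m) (Fin X.m) ℝ}
    (hk : ρ ∘ₗ F.k = 0) (h1 : IsRt X ρ) (h2 : RtV X ((2 : ℝ) • ρ) w) (h3 : RtV X γ z)
    (h4 : IsRt X ((2 : ℝ) • ρ + γ)) : w * z - z * w ≠ 0 := by
  have hkγ : γ ∘ₗ F.k = 0 := F.kof hk h1 two_ne_zero ⟨z, h3⟩ h4
  obtain ⟨w', rfl, hw⟩ := F.down _ w (F.ksm hk 2) h2
  obtain ⟨z', rfl, hz⟩ := F.down _ z hkγ h3
  rw [LinearMap.smul_comp] at hw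
  have h5 := F.dnR (F.kadd (F.ksm hk 2) hkγ) h4
  rw [LinearMap.add_comp, LinearMap.smul_comp] at h5
  have h6 := hY.inj (ρ ∘ₗ F.i) (γ ∘ₗ F.i) w' z' (F.dnR hk h1) hw hz h5
  rw [← F.br]
  exact fun h7 => h6 (F.inj _ h7)

theorem rtwo (hY : RR Y) {ρ γ γ' : X.b →ₗ[ℝ] ℝ} (hk : ρ ∘ₗ F.k = 0) (h1 : IsRt X ρ)
    (h2 : IsRt X ((2 : ℝ) • ρ)) (h3 : IsRt X γ) (h4 : IsRt X γ') (n1 : NPr γ ρ) (n2 : NPr γ' ρ)
    (h5 : IsRt X (ρ + γ)) (h6 : IsRt X (ρ + γ')) (h7 : IsRt X (ρ + γ + γ')) :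
    IsRt X ((2 : ℝ) • ρ + γ) ∨ IsRt X ((2 : ℝ) • ρ + γ') := by
  have k1 : γ ∘ₗ F.k = 0 := F.kof hk h1 one_ne_zero h3 (by rw [one_smul]; exact h5)
  have k2 : γ' ∘ₗ F.k = 0 := F.kof hk h1 one_ne_zero h4 (by rw [one_smul]; exact h6)
  have h2' := F.dnR (F.ksm hk 2) h2
  have h5' := F.dnR (F.kadd hk k1) h5
  have h6' := F.dnR (F.kadd hk k2) h6
  have h7' := F.dnR (F.kadd (F.kadd hk k1) k2) h7
  rw [LinearMap.smul_comp] at h2'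
  rw [LinearMap.add_comp] at h5' h6'
  rw [LinearMap.add_comp, LinearMap.add_comp] at h7'
  rcases hY.two (ρ ∘ₗ F.i) (γ ∘ₗ F.i) (γ' ∘ₗ F.i) (F.dnR hk h1) h2' (F.dnR k1 h3) (F.dnR k2 h4)
    (F.npr_dn k1 hk n1) (F.npr_dn k2 hk n2) h5' h6' h7' with h | h
  · refine Or.inl (F.bk (F.kadd (F.ksm hk 2) k1) ?_)
    rw [LinearMap.add_comp, LinearMap.smul_comp]
    exact h
  · refine Or.inr (F.bk (F.kadd (F.ksm hk 2) k2) ?_)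
    rw [LinearMap.add_comp, LinearMap.smul_comp]
    exact h

end Fc

/-! ### The two factors of a product -/

/-- the projection on the first factor -/
def prL (Y Z : Dat) : (Y.prod Z).b →ₗ[ℝ] Y.b where
  toFun c := ⟨LinearMap.funLeft ℝ ℝ (Fin.castAdd Z.m) c.1, c.2.1⟩
  map_add' _ _ := rfl
  map_smul' _ _ := rfl

/-- the projection on the second factor -/
def prR (Y Z : Dat) : (Y.prod Z).b →ₗ[ℝ] Z.b where
  toFun c := ⟨LinearMap.funLeft ℝ ℝ (Fin.natAdd Y.m) c.1, c.2.2⟩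
  map_add' _ _ := rfl
  map_smul' _ _ := rfl

section bdaux

variable {m m' : ℕ}

theorem bL_add (x y : Matrix (Fin m) (Fin m) ℝ) :
    bd (x + y) (0 : Matrix (Fin m') (Fin m') ℝ) = bd x 0 + bd y 0 := by
  rw [bd_add, add_zero]

theorem bL_smul (c : ℝ) (x : Matrix (Fin m) (Fin m) ℝ) :
    bd (c • x) (0 : Matrix (Fin m') (Fin m') ℝ) = c • bd x 0 := by
  rw [bd_smul, smul_zero]

theorem bL_mul (x y : Matrix (Fin m) (Fin m) ℝ) :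
    bd (x * y) (0 : Matrix (Fin m') (Fin m') ℝ) = bd x 0 * bd y 0 := by
  rw [bd_mul, mul_zero]

theorem bR_add (x y : Matrix (Fin m') (Fin m') ℝ) :
    bd (0 : Matrix (Fin m) (Fin m) ℝ) (x + y) = bd 0 x + bd 0 y := by
  rw [bd_add, add_zero]

theorem bR_smul (c : ℝ) (x : Matrix (Fin m') (Fin m') ℝ) :
    bd (0 : Matrix (Fin m) (Fin m) ℝ) (c • x) = c • bd 0 x := by
  rw [bd_smul, smul_zero]

theorem bR_mul (x y : Matrix (Fin m') (Fin m') ℝ) :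
    bd (0 : Matrix (Fin m) (Fin m) ℝ) (x * y) = bd 0 x * bd 0 y := by
  rw [bd_mul, mul_zero]

theorem bL_wt (c : Fin m → ℝ) (c' : Fin m' → ℝ) (r : ℝ) (x : Matrix (Fin m) (Fin m) ℝ)
    (h : diagonal c * x - x * diagonal c = r • x) :
    diagonal (Fin.append c c') * bd x (0 : Matrix (Fin m') (Fin m') ℝ) -
      bd x 0 * diagonal (Fin.append c c') = r • bd x 0 := by
  rw [← bd_diagonal, bd_mul, bd_mul, bd_sub, bd_smul, h, mul_zero, zero_mul, sub_zero, smul_zero]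

theorem bR_wt (c : Fin m → ℝ) (c' : Fin m' → ℝ) (r : ℝ) (x : Matrix (Fin m') (Fin m') ℝ)
    (h : diagonal c' * x - x * diagonal c' = r • x) :
    diagonal (Fin.append c c') * bd (0 : Matrix (Fin m) (Fin m) ℝ) x -
      bd 0 x * diagonal (Fin.append c c') = r • bd 0 x := by
  rw [← bd_diagonal, bd_mul, bd_mul, bd_sub, bd_smul, h, mul_zero, zero_mul, sub_zero, smul_zero]

end bdaux

section prod

variable {Y Z : Dat}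

theorem app_eq (c : (Y.prod Z).b) : c.1 =
    Fin.append (prL Y Z c : Fin Y.m → ℝ) (prR Y Z c : Fin Z.m → ℝ) := by
  funext i
  refine Fin.addCases (fun i => ?_) (fun i => ?_) i
  · rw [Fin.append_left]; rfl
  · rw [Fin.append_right]; rfl

theorem prL_inL (c : Y.b) : prL Y Z (inL Y Z c) = c := by
  apply Subtype.ext
  funext i
  show Fin.append (c : Fin Y.m → ℝ) (0 : Fin Z.m → ℝ) (Fin.castAdd Z.m i) = _
  rw [Fin.append_left]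

theorem prL_inR (c : Z.b) : prL Y Z (inR Y Z c) = 0 := by
  apply Subtype.ext
  funext i
  show Fin.append (0 : Fin Y.m → ℝ) (c : Fin Z.m → ℝ) (Fin.castAdd Z.m i) = _
  rw [Fin.append_left]
  rfl

theorem prR_inR (c : Z.b) : prR Y Z (inR Y Z c) = c := by
  apply Subtype.ext
  funext i
  show Fin.append (0 : Fin Y.m → ℝ) (c : Fin Z.m → ℝ) (Fin.natAdd Y.m i) = _
  rw [Fin.append_right]

theorem prR_inL (c : Y.b) : prR Y Z (inL Y Z c) = 0 := by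
  apply Subtype.ext
  funext i
  show Fin.append (c : Fin Y.m → ℝ) (0 : Fin Z.m → ℝ) (Fin.natAdd Y.m i) = _
  rw [Fin.append_right]
  rfl

theorem in_pr (c : (Y.prod Z).b) : c = inL Y Z (prL Y Z c) + inR Y Z (prR Y Z c) := by
  apply Subtype.ext
  have h1 := app_eq c
  show c.1 = Fin.append (prL Y Z c : Fin Y.m → ℝ) (0 : Fin Z.m → ℝ) +
    Fin.append (0 : Fin Y.m → ℝ) (prR Y Z c : Fin Z.m → ℝ)
  rw [h1]
  funext i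
  refine Fin.addCases (fun i => ?_) (fun i => ?_) i
  · rw [Pi.add_apply, Fin.append_left, Fin.append_left, Fin.append_left, Pi.zero_apply, add_zero]
  · rw [Pi.add_apply, Fin.append_right, Fin.append_right, Fin.append_right, Pi.zero_apply,
      zero_add]

theorem wtv_cases (ρ : (Y.prod Z).b →ₗ[ℝ] ℝ) (x : Matrix (Fin (Y.prod Z).m) (Fin (Y.prod Z).m) ℝ)
    (h : WtV (Y.prod Z) ρ x) : ∃ (x₁ : Matrix (Fin Y.m) (Fin Y.m) ℝ)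
      (x₂ : Matrix (Fin Z.m) (Fin Z.m) ℝ), x = bd x₁ x₂ ∧ WtV Y (ρ ∘ₗ inL Y Z) x₁ ∧
      WtV Z (ρ ∘ₗ inR Y Z) x₂ ∧ (x₁ = 0 ∨ ρ ∘ₗ inR Y Z = 0) ∧ (x₂ = 0 ∨ ρ ∘ₗ inL Y Z = 0) := by
  obtain ⟨⟨x₁, hx₁, x₂, hx₂, rfl⟩, w⟩ := h
  refine ⟨x₁, x₂, rfl, ⟨hx₁, wt_L ρ x₁ x₂ fun c hc => w ⟨c, hc⟩⟩,
    ⟨hx₂, wt_R ρ x₁ x₂ fun c hc => w ⟨c, hc⟩⟩, ?_, ?_⟩
  · by_cases h0 : x₁ = 0
    · exact Or.inl h0
    · refine Or.inr ?_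
      ext c
      have h1 : diagonal (Fin.append (0 : Fin Y.m → ℝ) (c : Fin Z.m → ℝ)) * bd x₁ x₂ -
          bd x₁ x₂ * diagonal (Fin.append (0 : Fin Y.m → ℝ) (c : Fin Z.m → ℝ)) =
          ρ (inR Y Z c) • bd x₁ x₂ := w (inR Y Z c)
      rw [← bd_diagonal, bd_mul, bd_mul, bd_sub, bd_smul] at h1
      have h2 := (bd_inj h1).1
      rw [diagonal_zero', zero_mul, mul_zero, sub_zero] at h2
      rcases smul_eq_zero.1 h2.symm with h3 | h3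
      · exact h3
      · exact absurd h3 h0
  · by_cases h0 : x₂ = 0
    · exact Or.inl h0
    · refine Or.inr ?_
      ext c
      have h1 : diagonal (Fin.append (c : Fin Y.m → ℝ) (0 : Fin Z.m → ℝ)) * bd x₁ x₂ -
          bd x₁ x₂ * diagonal (Fin.append (c : Fin Y.m → ℝ) (0 : Fin Z.m → ℝ)) =
          ρ (inL Y Z c) • bd x₁ x₂ := w (inL Y Z c)
      rw [← bd_diagonal, bd_mul, bd_mul, bd_sub, bd_smul] at h1
      have h2 := (bd_inj h1).2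
      rw [diagonal_zero', zero_mul, mul_zero, sub_zero] at h2
      rcases smul_eq_zero.1 h2.symm with h3 | h3
      · exact h3
      · exact absurd h3 h0

theorem root_cases (hY : Ray Y) (hZ : Ray Z) (ρ : (Y.prod Z).b →ₗ[ℝ] ℝ)
    (x : Matrix (Fin (Y.prod Z).m) (Fin (Y.prod Z).m) ℝ) (h : RtV (Y.prod Z) ρ x) :
    (∃ x₁ : Matrix (Fin Y.m) (Fin Y.m) ℝ, x = bd x₁ (0 : Matrix (Fin Z.m) (Fin Z.m) ℝ) ∧
      RtV Y (ρ ∘ₗ inL Y Z) x₁ ∧ ρ ∘ₗ inR Y Z = 0 ∧ ρ ∘ₗ inL Y Z ≠ 0) ∨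
    (∃ x₂ : Matrix (Fin Z.m) (Fin Z.m) ℝ, x = bd (0 : Matrix (Fin Y.m) (Fin Y.m) ℝ) x₂ ∧
      RtV Z (ρ ∘ₗ inR Y Z) x₂ ∧ ρ ∘ₗ inL Y Z = 0 ∧ ρ ∘ₗ inR Y Z ≠ 0) := by
  obtain ⟨hw, hx⟩ := h
  obtain ⟨x₁, x₂, rfl, w1, w2, a1, a2⟩ := wtv_cases ρ x hw
  by_cases h1 : x₁ = 0
  · have h2 : x₂ ≠ 0 := by
      intro h2
      apply hx
      rw [h1, h2]
      exact bd_zero
    refine Or.inr ⟨x₂, by rw [h1], ⟨w2, h2⟩, a2.resolve_left h2, root_ne hZ ⟨x₂, w2, h2⟩⟩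
  · have n1 : ρ ∘ₗ inL Y Z ≠ 0 := root_ne hY ⟨x₁, w1, h1⟩
    refine Or.inl ⟨x₁, ?_, ⟨w1, h1⟩, a1.resolve_left h1, n1⟩
    rw [a2.resolve_right n1]

theorem up_L {σ : Y.b →ₗ[ℝ] ℝ} {x : Matrix (Fin Y.m) (Fin Y.m) ℝ} (h : RtV Y σ x) :
    RtV (Y.prod Z) (σ ∘ₗ prL Y Z) (bd x (0 : Matrix (Fin Z.m) (Fin Z.m) ℝ)) := by
  obtain ⟨⟨h1, h2⟩, h3⟩ := h
  refine ⟨⟨⟨x, h1, 0, Z.n.zero_mem, rfl⟩, ?_⟩, ?_⟩
  · intro c
    rw [app_eq c]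
    exact bL_wt _ _ _ x (h2 (prL Y Z c))
  · intro h4
    exact h3 (bd_inj (h4.trans bd_zero.symm)).1

theorem up_R {σ : Z.b →ₗ[ℝ] ℝ} {x : Matrix (Fin Z.m) (Fin Z.m) ℝ} (h : RtV Z σ x) :
    RtV (Y.prod Z) (σ ∘ₗ prR Y Z) (bd (0 : Matrix (Fin Y.m) (Fin Y.m) ℝ) x) := by
  obtain ⟨⟨h1, h2⟩, h3⟩ := h
  refine ⟨⟨⟨0, Y.n.zero_mem, x, h1, rfl⟩, ?_⟩, ?_⟩
  · intro c
    rw [app_eq c]
    exact bR_wt _ _ _ x (h2 (prR Y Z c))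
  · intro h4
    exact h3 (bd_inj (h4.trans bd_zero.symm)).2

/-- the map `x ↦ bd x 0` -/
def jL (Y Z : Dat) : Matrix (Fin Y.m) (Fin Y.m) ℝ →ₗ[ℝ]
    Matrix (Fin (Y.prod Z).m) (Fin (Y.prod Z).m) ℝ where
  toFun x := bd x (0 : Matrix (Fin Z.m) (Fin Z.m) ℝ)
  map_add' x y := bL_add x y
  map_smul' c x := bL_smul c x

/-- the map `x ↦ bd 0 x` -/
def jR (Y Z : Dat) : Matrix (Fin Z.m) (Fin Z.m) ℝ →ₗ[ℝ]
    Matrix (Fin (Y.prod Z).m) (Fin (Y.prod Z).m) ℝ where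
  toFun x := bd (0 : Matrix (Fin Y.m) (Fin Y.m) ℝ) x
  map_add' x y := bR_add x y
  map_smul' c x := bR_smul c x

/-- the first factor -/
def fcL (hY : Ray Y) (hZ : Ray Z) : Fc (Y.prod Z) Y Z where
  i := inL Y Z
  p := prL Y Z
  k := inR Y Z
  j := jL Y Z
  pi := prL_inL
  pk := prL_inR
  dec := by
    intro ρ hρ
    ext c
    have h1 := LinearMap.congr_fun hρ (prR Y Z c)
    rw [LinearMap.comp_apply, LinearMap.zero_apply] at h1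
    conv_lhs => rw [in_pr c, map_add, h1, add_zero]
    rfl
  inj := fun x h => (bd_inj ((show bd x (0 : Matrix (Fin Z.m) (Fin Z.m) ℝ) = 0 from h).trans
    bd_zero.symm)).1
  mul := fun x y => bL_mul x y
  up := fun σ x h => up_L h
  down := by
    intro ρ x hk h
    rcases root_cases hY hZ ρ x h with ⟨x₁, e, h1, -, -⟩ | ⟨-, -, -, -, h1⟩
    · exact ⟨x₁, e, h1⟩
    · exact absurd hk h1
  ne := by
    rintro ρ hk ⟨x, h⟩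
    rcases root_cases hY hZ ρ x h with ⟨-, -, -, -, h1⟩ | ⟨-, -, -, -, h1⟩
    · exact h1
    · exact absurd hk h1
  alt := by
    rintro ρ ⟨x, h⟩ hi
    rcases root_cases hY hZ ρ x h with ⟨-, -, -, h1, -⟩ | ⟨-, -, -, h1, -⟩
    · exact h1
    · exact absurd h1 hi

/-- the second factor -/
def fcR (hY : Ray Y) (hZ : Ray Z) : Fc (Y.prod Z) Z Y where
  i := inR Y Z
  p := prR Y Z
  k := inL Y Z
  j := jR Y Z
  pi := prR_inR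
  pk := prR_inL
  dec := by
    intro ρ hρ
    ext c
    have h1 := LinearMap.congr_fun hρ (prL Y Z c)
    rw [LinearMap.comp_apply, LinearMap.zero_apply] at h1
    conv_lhs => rw [in_pr c, map_add, h1, zero_add]
    rfl
  inj := fun x h => (bd_inj ((show bd (0 : Matrix (Fin Y.m) (Fin Y.m) ℝ) x = 0 from h).trans
    bd_zero.symm)).2
  mul := fun x y => bR_mul x y
  up := fun σ x h => up_R h
  down := by
    intro ρ x hk h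
    rcases root_cases hY hZ ρ x h with ⟨-, -, -, -, h1⟩ | ⟨x₂, e, h1, -, -⟩
    · exact absurd hk h1
    · exact ⟨x₂, e, h1⟩
  ne := by
    rintro ρ hk ⟨x, h⟩
    rcases root_cases hY hZ ρ x h with ⟨-, -, -, -, h1⟩ | ⟨-, -, -, -, h1⟩
    · exact absurd hk h1
    · exact h1
  alt := by
    rintro ρ ⟨x, h⟩ hi
    rcases root_cases hY hZ ρ x h with ⟨-, -, -, h1, -⟩ | ⟨-, -, -, h1, -⟩
    · exact absurd h1 hi
    · exact h1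

theorem kind (hY : Ray Y) (hZ : Ray Z) {ρ : (Y.prod Z).b →ₗ[ℝ] ℝ} (h : IsRt (Y.prod Z) ρ) :
    ρ ∘ₗ inR Y Z = 0 ∨ ρ ∘ₗ inL Y Z = 0 := by
  obtain ⟨x, hx⟩ := h
  rcases root_cases hY hZ ρ x hx with ⟨-, -, -, h1, -⟩ | ⟨-, -, -, h1, -⟩
  · exact Or.inl h1
  · exact Or.inr h1

end prod

theorem rrp : RrpStmt := by
  intro Y Z hY hZ
  have hray : Ray (Y.prod Z) := by
    intro ρ c h1 h2
    rcases kind hY hZ h1 with hk | hk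
    · exact (fcL hY hZ).ray hY hk h1 h2
    · exact (fcR hY hZ).ray hZ hk h1 h2
  refine ⟨hray, ?_, ?_, ?_⟩
  · intro s1 s2 ρ h1
    rcases kind hY hZ h1 with hk | hk
    · exact (fcL hY hZ).s3 s1 hk h1
    · exact (fcR hY hZ).s3 s2 hk h1
  · intro r1 r2
    refine ⟨hray, ?_, ?_⟩
    · intro ρ γ w z h1 h2 h3 h4
      rcases kind hY hZ h1 with hk | hk
      · exact (fcL hY hZ).rinj r1 hk h1 h2 h3 h4
      · exact (fcR hY hZ).rinj r2 hk h1 h2 h3 h4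
    · intro ρ γ γ' h1 h2 h3 h4 n1 n2 h5 h6 h7
      rcases kind hY hZ h1 with hk | hk
      · exact (fcL hY hZ).rtwo r1 hk h1 h2 h3 h4 n1 n2 h5 h6 h7
      · exact (fcR hY hZ).rtwo r2 hk h1 h2 h3 h4 n1 n2 h5 h6 h7
  · intro r1 r2 ρ h1
    rcases kind hY hZ h1 with hk | hk
    · exact (fcL hY hZ).red r1 hk h1
    · exact (fcR hY hZ).red r2 hk h1

end Pool.Agent.QSB.H67
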